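import Mathlib

/-!
# Optimal edge-colourings of the complete graph without rainbow cycles of length `n - 2`

For every `n = 2 ^ k` with `k ≥ 3` some optimal edge-colouring of `K_n` has no rainbow cycle of
length `n - 2`.
-/

set_option autoImplicit false

namespace Pool.Agent.Results.MP_4bc86c_co.PowersOfTwo

/-- `c` is a proper edge-colouring of the complete graph on the vertex set `V`: two distinct edges
`uv` and `uw` with a common end get different colours. (The values of `c` at the pairs `s(v, v)`,
which are not edges, play no role.) -/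
def Proper {V C : Type} (c : Sym2 V → C) : Prop :=
  ∀ u v w : V, u ≠ v → u ≠ w → v ≠ w → c s(u, v) ≠ c s(u, w)

/-- The set of the colours of the edges of the complete graph on `V`. -/
def used {V C : Type} (c : Sym2 V → C) : Set C := c '' (⊤ : SimpleGraph V).edgeSet

/-- `c` is an optimal edge-colouring of the complete graph on `V`: it is proper, and no proper
edge-colouring (with any colours) uses fewer colours. -/
def Optimal {V C : Type} (c : Sym2 V → C) : Prop :=
  Proper c ∧ ∀ (D : Type) (d : Sym2 V → D), Proper d → (used c).encard ≤ (used d).encard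

/-- Some cycle of length `l` in the complete graph on `V` has pairwise different colours on its
edges. -/
def HasRainbowCycle {V C : Type} (c : Sym2 V → C) (l : ℕ) : Prop :=
  ∃ (v : V) (w : (⊤ : SimpleGraph V).Walk v v), w.IsCycle ∧ w.length = l ∧
    (w.edges.map c).Nodup

/-- sums of the labels `e x + e y` along a walk telescope -/
theorem walk_sum {V : Type} {k : ℕ} (e : V → (Fin k → ZMod 2)) (c : Sym2 V → (Fin k → ZMod 2))
    (hc : ∀ x y, c s(x, y) = e x + e y) {u v : V} (w : (⊤ : SimpleGraph V).Walk u v) :
    (w.edges.map c).sum = e u + e v := by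
  induction w with
  | nil =>
    simp only [SimpleGraph.Walk.edges_nil, List.map_nil, List.sum_nil]
    funext i
    simp only [Pi.zero_apply, Pi.add_apply]
    exact (CharTwo.add_self_eq_zero _).symm
  | cons h p ih =>
    rename_i a b d
    simp only [SimpleGraph.Walk.edges_cons, List.map_cons, List.sum_cons]
    rw [ih, hc]
    funext i
    simp only [Pi.add_apply]
    have h2 : e b i + e b i = 0 := CharTwo.add_self_eq_zero _
    linear_combination h2

/-- the sum of all elements of `(ℤ/2)^k` is zero for `k ≥ 2` -/
theorem sum_all (k : ℕ) (hk : 2 ≤ k) : ∑ x : Fin k → ZMod 2, x = 0 := by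
  funext i
  rw [Finset.sum_apply, Pi.zero_apply]
  obtain ⟨j, hj⟩ : ∃ j : Fin k, j ≠ i := by
    by_cases h0 : i.val = 0
    · exact ⟨⟨1, by omega⟩, fun h => by rw [← h] at h0; simp at h0⟩
    · exact ⟨⟨0, by omega⟩, fun h => h0 (by rw [← h])⟩
  refine Finset.sum_involution (fun x _ => x + Pi.single j 1) ?_ ?_ ?_ ?_
  · intro x _
    simp only [Pi.add_apply, Pi.single_apply, if_neg (Ne.symm hj), add_zero]
    exact CharTwo.add_self_eq_zero _
  · intro x _ _ h
    have := congrFun h j
    simp at this
  · intro x _
    exact Finset.mem_univ _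
  · intro x _
    funext l
    simp only [Pi.add_apply]
    have h2 : ((Pi.single j 1 : Fin k → ZMod 2) l) + (Pi.single j 1 : Fin k → ZMod 2) l = 0 :=
      CharTwo.add_self_eq_zero _
    linear_combination h2

/-- **No rainbow cycle of length `n - 2`.** For every `k ≥ 3` and `n = 2 ^ k` there is an optimal
edge-colouring of the complete graph on `n` vertices without a rainbow cycle of length `n - 2`. -/
theorem result : ∀ k : ℕ, 3 ≤ k → ∃ c : Sym2 (Fin (2 ^ k)) → (Fin k → ZMod 2),
    Optimal c ∧ ¬ HasRainbowCycle c (2 ^ k - 2) := by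
  intro k hk
  classical
  have hcardV : Fintype.card (Fin k → ZMod 2) = 2 ^ k := by
    rw [Fintype.card_fun, ZMod.card, Fintype.card_fin]
  have e : Fin (2 ^ k) ≃ (Fin k → ZMod 2) :=
    Fintype.equivOfCardEq (by rw [hcardV, Fintype.card_fin])
  let c : Sym2 (Fin (2 ^ k)) → (Fin k → ZMod 2) :=
    Sym2.lift ⟨fun x y => e x + e y, fun x y => add_comm _ _⟩
  have hc : ∀ x y, c s(x, y) = e x + e y := fun x y => rfl
  have hpow : 8 ≤ 2 ^ k := by
    calc 8 = 2 ^ 3 := by norm_num
      _ ≤ 2 ^ k := Nat.pow_le_pow_right (by norm_num) hk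
  have hne : ∀ x y, x ≠ y → c s(x, y) ≠ 0 := by
    intro x y hxy h
    rw [hc] at h
    apply hxy
    apply e.injective
    funext i
    have h1 := congrFun h i
    simp only [Pi.add_apply, Pi.zero_apply] at h1
    have h2 : e y i + e y i = 0 := CharTwo.add_self_eq_zero _
    linear_combination h1 - h2
  refine ⟨c, ⟨?_, ?_⟩, ?_⟩
  · intro u v w _ _ hvw h
    rw [hc, hc] at h
    exact hvw (e.injective (add_left_cancel h))
  · intro D d hd
    have h1 : (used c).encard ≤ ((2 ^ k - 1 : ℕ) : ℕ∞) := by
      have hsub : used c ⊆ ((Finset.univ.erase (0 : Fin k → ZMod 2) : Finset _) : Set _) := by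
        rintro _ ⟨p, hp, rfl⟩
        induction p with
        | _ x y =>
          rw [SimpleGraph.mem_edgeSet, SimpleGraph.top_adj] at hp
          simp only [Finset.coe_erase, Finset.coe_univ, Set.mem_sdiff, Set.mem_univ,
            Set.mem_singleton_iff, true_and]
          exact hne x y hp
      refine (Set.encard_le_encard hsub).trans ?_
      rw [Set.encard_coe_eq_coe_finsetCard, Finset.card_erase_of_mem (Finset.mem_univ _),
        Finset.card_univ, hcardV]
    have h2 : ((2 ^ k - 1 : ℕ) : ℕ∞) ≤ (used d).encard := by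
      let v0 : Fin (2 ^ k) := ⟨0, by omega⟩
      have himg : (fun y => d s(v0, y)) '' ((Finset.univ.erase v0 : Finset _) : Set _) ⊆ used d := by
        rintro _ ⟨y, hy, rfl⟩
        refine ⟨s(v0, y), ?_, rfl⟩
        rw [SimpleGraph.mem_edgeSet, SimpleGraph.top_adj]
        simp only [Finset.coe_erase, Finset.coe_univ, Set.mem_sdiff, Set.mem_univ,
            Set.mem_singleton_iff, true_and] at hy
        exact Ne.symm hy
      refine le_trans (le_of_eq ?_) (Set.encard_le_encard himg)
      rw [Set.InjOn.encard_image, Set.encard_coe_eq_coe_finsetCard,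
        Finset.card_erase_of_mem (Finset.mem_univ _), Finset.card_univ, Fintype.card_fin]
      intro y hy z hz hyz
      by_contra hne'
      simp only [Finset.coe_erase, Finset.coe_univ, Set.mem_sdiff, Set.mem_univ,
            Set.mem_singleton_iff, true_and] at hy hz
      exact hd v0 y z (Ne.symm hy) (Ne.symm hz) hne' hyz
    exact h1.trans h2
  · rintro ⟨v, w, _, hlen, hnd⟩
    have hsum : (w.edges.map c).sum = 0 := by
      rw [walk_sum (fun x => e x) c hc w]
      funext i
      exact CharTwo.add_self_eq_zero _
    set S : Finset (Fin k → ZMod 2) := (w.edges.map c).toFinset with hS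
    have hScard : S.card = 2 ^ k - 2 := by
      rw [hS, List.toFinset_card_of_nodup hnd, List.length_map, SimpleGraph.Walk.length_edges, hlen]
    have hSsum : ∑ x ∈ S, x = 0 := by
      rw [hS, List.sum_toFinset _ hnd]
      rw [List.map_id']; exact hsum
    have hS0 : (0 : Fin k → ZMod 2) ∉ S := by
      intro h
      rw [hS, List.mem_toFinset, List.mem_map] at h
      obtain ⟨p, hp, hp0⟩ := h
      have hpe := w.edges_subset_edgeSet hp
      induction p with
      | _ x y =>
        rw [SimpleGraph.mem_edgeSet, SimpleGraph.top_adj] at hpe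
        exact hne x y hpe hp0
    have hcompl : (Sᶜ.erase 0).card = 1 := by
      rw [Finset.card_erase_of_mem (Finset.mem_compl.2 hS0), Finset.card_compl, hcardV, hScard]
      omega
    obtain ⟨z, hz⟩ := Finset.card_eq_one.1 hcompl
    have hz0 : z ≠ 0 := by
      have : z ∈ Sᶜ.erase 0 := by rw [hz]; exact Finset.mem_singleton_self z
      exact (Finset.mem_erase.1 this).1
    apply hz0
    have htot := sum_all k (by omega)
    have hsplit : ∑ x : Fin k → ZMod 2, x = ∑ x ∈ S, x + ∑ x ∈ Sᶜ, x :=
      (Finset.sum_add_sum_compl S _).symm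
    have hcs : ∑ x ∈ Sᶜ, x = z := by
      rw [← Finset.add_sum_erase _ _ (Finset.mem_compl.2 hS0), hz, Finset.sum_singleton, zero_add]
    rw [htot, hSsum, hcs, zero_add] at hsplit
    exact hsplit.symm

end Pool.Agent.Results.MP_4bc86c_co.PowersOfTwo
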